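import Pool.Agent.D0H36.LW.Stm6
import Pool.Agent.D0H22.BL.StP
import Pool.Agent.D0H73.BL.ClsP

/-!
# LW, module CONN: a positive share of the planar graphs is connected

Author: helper52 (paper proof: helper36, see `Pool/Agent/D0H36/LW/Stm6.lean`).
-/

set_option autoImplicit false

namespace Pool.Agent.D0H52.LW

open SimpleGraph Finset
open scoped Classical

section one
variable {V : Type} (G : SimpleGraph V) (x y : V)

/-- the graph with one more edge -/
def plus : SimpleGraph V where
  Adj a b := G.Adj a b ∨ (a ≠ b ∧ ((a = x ∧ b = y) ∨ (a = y ∧ b = x)))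
  symm := ⟨fun a b h => h.elim (fun h => Or.inl h.symm) (fun h => Or.inr ⟨h.1.symm, by tauto⟩)⟩
  loopless := ⟨fun a h => h.elim (fun h => h.ne rfl) (fun h => h.1 rfl)⟩

theorem plus_adj (a b : V) : (plus G x y).Adj a b ↔
    G.Adj a b ∨ (a ≠ b ∧ ((a = x ∧ b = y) ∨ (a = y ∧ b = x))) := Iff.rfl

theorem le_plus : G ≤ plus G x y := fun _ _ h => Or.inl h

theorem plus_reach (a b : V) (h : (plus G x y).Reachable a b) :
    G.Reachable a b ∨ (G.Reachable a x ∧ G.Reachable y b) ∨ (G.Reachable a y ∧ G.Reachable x b) := by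
  obtain ⟨p⟩ := h
  induction p with
  | nil => exact Or.inl (Reachable.refl _)
  | @cons u v w huv p ih =>
    rw [plus_adj] at huv
    rcases huv with h | ⟨_, ⟨h1, h2⟩ | ⟨h1, h2⟩⟩
    · rcases ih with h3 | ⟨h3, h4⟩ | ⟨h3, h4⟩
      · exact Or.inl (h.reachable.trans h3)
      · exact Or.inr (Or.inl ⟨h.reachable.trans h3, h4⟩)
      · exact Or.inr (Or.inr ⟨h.reachable.trans h3, h4⟩)
    · subst h1 h2
      rcases ih with h3 | ⟨h3, h4⟩ | ⟨h3, h4⟩
      · exact Or.inr (Or.inl ⟨Reachable.refl _, h3⟩)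
      · exact Or.inr (Or.inl ⟨Reachable.refl _, h4⟩)
      · exact Or.inl h4
    · subst h1 h2
      rcases ih with h3 | ⟨h3, h4⟩ | ⟨h3, h4⟩
      · exact Or.inr (Or.inr ⟨Reachable.refl _, h3⟩)
      · exact Or.inl h4
      · exact Or.inr (Or.inr ⟨Reachable.refl _, h4⟩)

/-- the number of the components -/
noncomputable def nc : ℕ := Nat.card G.ConnectedComponent

theorem nc_plus [Finite V] (h : ¬ G.Reachable x y) : nc G = nc (plus G x y) + 1 := by
  have hxy : x ≠ y := fun h1 => h (h1 ▸ Reachable.refl _)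
  have hbij : Function.Bijective
      (fun c : {c : G.ConnectedComponent // c ≠ G.connectedComponentMk y} =>
        c.1.map (Hom.ofLE (le_plus G x y))) := by
    constructor
    · rintro ⟨c, hc⟩ ⟨d, hd⟩ h1
      revert hc hd h1
      refine ConnectedComponent.ind₂ (fun v w => ?_) c d
      intro hc hd h1
      simp only [ConnectedComponent.map_mk] at h1
      have h2 := ConnectedComponent.exact h1
      simp only [Hom.ofLE_apply] at h2
      refine Subtype.ext ?_
      rcases plus_reach G x y v w h2 with h3 | ⟨h3, h4⟩ | ⟨h3, h4⟩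
      · exact ConnectedComponent.sound h3
      · exact absurd (ConnectedComponent.sound h4.symm) hd
      · exact absurd (ConnectedComponent.sound h3) hc
    · intro c
      refine ConnectedComponent.ind (fun v => ?_) c
      by_cases hv : G.Reachable v y
      · refine ⟨⟨G.connectedComponentMk x, fun h1 => h (ConnectedComponent.exact h1)⟩, ?_⟩
        simp only [ConnectedComponent.map_mk]
        refine ConnectedComponent.sound ?_
        simp only [Hom.ofLE_apply]
        have h1 : (plus G x y).Adj x y := Or.inr ⟨hxy, Or.inl ⟨rfl, rfl⟩⟩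
        exact h1.reachable.trans (hv.symm.mono (le_plus G x y))
      · refine ⟨⟨G.connectedComponentMk v, fun h1 => hv (ConnectedComponent.exact h1)⟩, ?_⟩
        simp only [ConnectedComponent.map_mk]
        rfl
  have h2 := Nat.card_eq_of_bijective _ hbij
  unfold nc
  rw [← h2]
  have h3 : Nat.card G.ConnectedComponent =
      Nat.card {c : G.ConnectedComponent // c ≠ G.connectedComponentMk y} + 1 := by
    have h4 := Nat.card_congr (Equiv.sumCompl (fun c : G.ConnectedComponent => c ≠ G.connectedComponentMk y))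
    rw [Nat.card_sum] at h4
    rw [← h4]
    congr 1
    rw [Nat.card_eq_one_iff_unique]
    refine ⟨⟨?_⟩, ⟨⟨G.connectedComponentMk y, by simp⟩⟩⟩
    rintro ⟨a, ha⟩ ⟨b, hb⟩
    simp only [ne_eq, not_not] at ha hb
    exact Subtype.ext (ha.trans hb.symm)
  exact h3

theorem pairs [Fintype V] (k : ℕ) (hk : nc G = k + 1) :
    Fintype.card V * k ≤ ((univ : Finset (V × V)).filter (fun p => ¬ G.Reachable p.1 p.2)).card := by
  have h1 : ((univ : Finset (V × V)).filter (fun p => ¬ G.Reachable p.1 p.2)).card =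
      ∑ a : V, ((univ : Finset V).filter (fun b => ¬ G.Reachable a b)).card := by
    rw [card_filter, ← univ_product_univ, sum_product]
    exact sum_congr rfl (fun a _ => (card_filter _ _).symm)
  rw [h1, ← smul_eq_mul, ← card_univ]
  refine card_nsmul_le_sum _ _ _ (fun a _ => ?_)
  -- representatives of the other components
  have h2 : Nat.card {c : G.ConnectedComponent // c ≠ G.connectedComponentMk a} = k := by
    have h4 := Nat.card_congr (Equiv.sumCompl (fun c : G.ConnectedComponent => c ≠ G.connectedComponentMk a))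
    rw [Nat.card_sum] at h4
    have h5 : Nat.card {c : G.ConnectedComponent // ¬ c ≠ G.connectedComponentMk a} = 1 := by
      rw [Nat.card_eq_one_iff_unique]
      refine ⟨⟨?_⟩, ⟨⟨G.connectedComponentMk a, by simp⟩⟩⟩
      rintro ⟨b, hb⟩ ⟨c, hc⟩
      simp only [ne_eq, not_not] at hb hc
      exact Subtype.ext (hb.trans hc.symm)
    have h6 : Nat.card G.ConnectedComponent = k + 1 := hk
    omega
  rw [← h2]
  have h3 : ((univ : Finset V).filter (fun b => ¬ G.Reachable a b)).card =
      Nat.card {b : V // ¬ G.Reachable a b} := by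
    rw [Nat.card_eq_fintype_card, Fintype.card_subtype]
  rw [h3]
  refine Nat.card_le_card_of_injective
    (fun c : {c : G.ConnectedComponent // c ≠ G.connectedComponentMk a} =>
      (⟨c.1.out, ?_⟩ : {b : V // ¬ G.Reachable a b})) ?_
  · intro h5
    apply c.2
    have h6 : G.connectedComponentMk c.1.out = c.1 := Quot.out_eq c.1
    rw [← h6]
    exact (ConnectedComponent.sound h5).symm
  · intro c d h5
    simp only [Subtype.mk.injEq] at h5
    refine Subtype.ext ?_
    have h6 : G.connectedComponentMk c.1.out = c.1 := Quot.out_eq c.1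
    have h7 : G.connectedComponentMk d.1.out = d.1 := Quot.out_eq d.1
    rw [← h6, ← h7, h5]

end one

section two
open Pool.Agent.D0H36.BL

theorem plus_mem {𝒞 : ∀ V : Type, SimpleGraph V → Prop} {d : ℕ} (c : Cls 𝒞 d) {V : Type}
    (G : SimpleGraph V) (hG : 𝒞 V G) (x y : V) (h : ¬ G.Reachable x y) : 𝒞 V (plus G x y) := by
  refine c.join V (plus G x y) {v | G.Reachable x v} x y (Reachable.refl _) h ?_ ?_ ?_
  · intro a b ha hb hab
    rw [plus_adj] at hab
    rcases hab with h1 | ⟨_, h1 | ⟨h1, h2⟩⟩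
    · exact absurd (Reachable.trans ha h1.reachable) hb
    · exact h1
    · exact absurd (show G.Reachable x y from h1 ▸ ha) h
  · refine c.mono V G _ ?_ hG
    rintro a b ⟨ha, hb, hab⟩
    rw [plus_adj] at hab
    rcases hab with h1 | ⟨_, ⟨h1, h2⟩ | ⟨h1, h2⟩⟩
    · exact h1
    · exact absurd (show G.Reachable x y from h2 ▸ hb) h
    · exact absurd (show G.Reachable x y from h1 ▸ ha) h
  · refine c.mono V G _ ?_ hG
    rintro a b ⟨ha, hb, hab⟩
    rw [plus_adj] at hab
    rcases hab with h1 | ⟨_, ⟨h1, h2⟩ | ⟨h1, h2⟩⟩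
    · exact h1
    · exact absurd (show G.Reachable x a from h1 ▸ Reachable.refl _) ha
    · exact absurd (show G.Reachable x b from h2 ▸ Reachable.refl _) hb

/-- the members of the class with `k` components -/
noncomputable def A (𝒞 : ∀ V : Type, SimpleGraph V → Prop) (n k : ℕ) : Finset (SimpleGraph (Fin n)) :=
  univ.filter (fun G => 𝒞 (Fin n) G ∧ nc G = k)

theorem step {𝒞 : ∀ V : Type, SimpleGraph V → Prop} {d : ℕ} (c : Cls 𝒞 d) (n k : ℕ) (hn : 1 ≤ n) :
    k * (A 𝒞 n (k + 1)).card ≤ 2 * d * (A 𝒞 n k).card := by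
  have h1 : (A 𝒞 n (k + 1)).card * (n * k) ≤
      (((A 𝒞 n (k + 1)) ×ˢ (univ : Finset (Fin n × Fin n))).filter
        (fun p => ¬ p.1.Reachable p.2.1 p.2.2)).card := by
    rw [card_filter, sum_product, ← smul_eq_mul]
    refine card_nsmul_le_sum _ _ _ (fun G hG => ?_)
    rw [← card_filter]
    have h2 := pairs G k (mem_filter.1 hG).2.2
    rw [Fintype.card_fin] at h2
    refine h2.trans (le_of_eq ?_)
    congr
  have h2 : (((A 𝒞 n k) ×ˢ (univ : Finset (Fin n × Fin n))).filter
        (fun p => p.1.Adj p.2.1 p.2.2)).card ≤ (A 𝒞 n k).card * (2 * d * n) := by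
    rw [card_filter, sum_product, ← smul_eq_mul]
    refine sum_le_card_nsmul _ _ _ (fun G hG => ?_)
    rw [← card_filter]
    have h3 := Pool.Agent.D0H22.BL.b1 c G (mem_filter.1 hG).2.1 _ univ rfl
    unfold Pool.Agent.D0H22.BL.e2 at h3
    rw [univ_product_univ, card_univ, Fintype.card_fin] at h3
    exact h3
  have h3 : (((A 𝒞 n (k + 1)) ×ˢ (univ : Finset (Fin n × Fin n))).filter
        (fun p => ¬ p.1.Reachable p.2.1 p.2.2)).card ≤
      (((A 𝒞 n k) ×ˢ (univ : Finset (Fin n × Fin n))).filter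
        (fun p => p.1.Adj p.2.1 p.2.2)).card := by
    refine card_le_card_of_injOn (fun p => (plus p.1 p.2.1 p.2.2, p.2)) ?_ ?_
    · rintro ⟨G, x, y⟩ hp
      simp only [coe_filter, mem_product, mem_univ, and_true, Set.mem_ofPred_eq, A, mem_filter,
        true_and] at hp ⊢
      obtain ⟨⟨h4, h5⟩, h6⟩ := hp
      have h7 : x ≠ y := fun h => h6 (h ▸ Reachable.refl _)
      refine ⟨⟨plus_mem c G h4 x y h6, ?_⟩, Or.inr ⟨h7, Or.inl ⟨rfl, rfl⟩⟩⟩
      have h8 := nc_plus G x y h6
      omega
    · rintro ⟨G, x, y⟩ hp ⟨H, z, w⟩ hq heq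
      simp only [Prod.mk.injEq] at heq
      obtain ⟨h4, h5, h6⟩ := heq
      subst h5 h6
      simp only [coe_filter, mem_product, mem_univ, and_true, Set.mem_ofPred_eq] at hp hq
      have hG : ¬ G.Adj x y := fun h => hp.2 h.reachable
      have hH : ¬ H.Adj x y := fun h => hq.2 h.reachable
      have h7 : G = H := by
        ext a b
        have h8 : (plus G x y).Adj a b ↔ (plus H x y).Adj a b := by rw [h4]
        rw [plus_adj, plus_adj] at h8
        by_cases h9 : a ≠ b ∧ ((a = x ∧ b = y) ∨ (a = y ∧ b = x))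
        · rcases h9.2 with ⟨rfl, rfl⟩ | ⟨rfl, rfl⟩
          · exact ⟨fun h => absurd h hG, fun h => absurd h hH⟩
          · exact ⟨fun h => absurd h.symm hG, fun h => absurd h.symm hH⟩
        · simpa [h9] using h8
      rw [h7]
  have h4 := h1.trans (h3.trans h2)
  have h5 : n * (k * (A 𝒞 n (k + 1)).card) ≤ n * (2 * d * (A 𝒞 n k).card) := by
    calc n * (k * (A 𝒞 n (k + 1)).card) = (A 𝒞 n (k + 1)).card * (n * k) := by ring
      _ ≤ _ := h4
      _ = _ := by ring
  exact Nat.le_of_mul_le_mul_left h5 hn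

theorem conn {𝒞 : ∀ V : Type, SimpleGraph V → Prop} {d : ℕ} (c : Cls 𝒞 d) :
    ∃ C : ℕ, ∀ n : ℕ, 1 ≤ n → num 𝒞 n ≤ C * cnt 𝒞 n (fun G => G.Connected) := by
  refine ⟨⌈Real.exp (2 * d)⌉₊, fun n hn => ?_⟩
  have : Nonempty (Fin n) := ⟨⟨0, hn⟩⟩
  have h1 : ∀ k : ℕ, ((A 𝒞 n (k + 1)).card : ℝ) ≤
      (2 * d : ℝ) ^ k / (k.factorial : ℝ) * ((A 𝒞 n 1).card : ℝ) := by
    intro k
    induction k with
    | zero => simp
    | succ k ih =>
      have h2 := step c n (k + 1) hn
      have h3 : ((k + 1 : ℕ) : ℝ) * ((A 𝒞 n (k + 1 + 1)).card : ℝ) ≤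
          (2 * d : ℝ) * ((A 𝒞 n (k + 1)).card : ℝ) := by exact_mod_cast h2
      have h4 : (0 : ℝ) < ((k + 1 : ℕ) : ℝ) := by positivity
      have h5 : ((A 𝒞 n (k + 1 + 1)).card : ℝ) ≤
          (2 * d : ℝ) * ((2 * d : ℝ) ^ k / (k.factorial : ℝ) * ((A 𝒞 n 1).card : ℝ)) /
            ((k + 1 : ℕ) : ℝ) := by
        rw [le_div_iff₀ h4, mul_comm]
        exact h3.trans (mul_le_mul_of_nonneg_left ih (by positivity))
      refine h5.trans (le_of_eq ?_)
      rw [Nat.factorial_succ]
      push_cast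
      have h6 : (k.factorial : ℝ) ≠ 0 := by positivity
      field_simp
      ring
  have h2 : num 𝒞 n = ∑ k ∈ range n, (A 𝒞 n (k + 1)).card := by
    have h3 : num 𝒞 n = ((univ : Finset (SimpleGraph (Fin n))).filter (fun G => 𝒞 (Fin n) G)).card := by
      unfold num cnt
      rw [Nat.card_eq_fintype_card, Fintype.card_subtype]
      simp
    rw [h3, card_eq_sum_card_fiberwise (f := fun G => nc G - 1) (t := range n)]
    · refine sum_congr rfl (fun k _ => ?_)
      congr 1
      ext G
      simp only [A, mem_filter, mem_univ, true_and]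
      have h4 : 1 ≤ nc G := Nat.card_pos
      constructor
      · rintro ⟨h5, h6⟩
        exact ⟨h5, by omega⟩
      · rintro ⟨h5, h6⟩
        exact ⟨h5, by omega⟩
    · intro G _
      simp only [coe_range, Set.mem_Iio]
      have h4 : 1 ≤ nc G := Nat.card_pos
      have h5 : nc G ≤ n := by
        have h6 := Nat.card_le_card_of_surjective (G.connectedComponentMk) Quot.mk_surjective
        rwa [Nat.card_eq_fintype_card (α := Fin n), Fintype.card_fin] at h6
      omega
  have h3 : (A 𝒞 n 1).card ≤ cnt 𝒞 n (fun G => G.Connected) := by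
    unfold cnt
    rw [Nat.card_eq_fintype_card, Fintype.card_subtype]
    refine card_le_card ?_
    intro G hG
    simp only [A, mem_filter, mem_univ, true_and] at hG ⊢
    refine ⟨hG.1, ?_⟩
    have h4 := (Nat.card_eq_one_iff_unique.1 hG.2).1
    exact ⟨fun v w => ConnectedComponent.exact (Subsingleton.elim _ _)⟩
  have h4 : (num 𝒞 n : ℝ) ≤ Real.exp (2 * d) * ((A 𝒞 n 1).card : ℝ) := by
    rw [h2]
    push_cast
    calc ∑ k ∈ range n, ((A 𝒞 n (k + 1)).card : ℝ)
        ≤ ∑ k ∈ range n, (2 * d : ℝ) ^ k / (k.factorial : ℝ) * ((A 𝒞 n 1).card : ℝ) :=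
          sum_le_sum (fun k _ => h1 k)
      _ = (∑ k ∈ range n, (2 * d : ℝ) ^ k / (k.factorial : ℝ)) * ((A 𝒞 n 1).card : ℝ) := by
          rw [sum_mul]
      _ ≤ _ := mul_le_mul_of_nonneg_right (Real.sum_le_exp_of_nonneg (by positivity) n)
          (by positivity)
  have h5 : (num 𝒞 n : ℝ) ≤ ((⌈Real.exp (2 * d)⌉₊ * cnt 𝒞 n (fun G => G.Connected) : ℕ) : ℝ) := by
    push_cast
    refine h4.trans ?_
    refine mul_le_mul (Nat.le_ceil _) (by exact_mod_cast h3) (by positivity) (by positivity)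
  exact_mod_cast h5

end two

theorem t_CONN : Pool.Agent.D0H36.LW.S_CONN := conn Pool.Agent.D0H73.BL.t_CLS

end Pool.Agent.D0H52.LW
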